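import Pool.Agent.K4H58.XK.MG
import Pool.Agent.K4H58.XK.G
import Pool.Agent.K4H81.XKS

/-!
# The clique number of the xor-square of a Kneser graph

`f₂ n k` is the clique number of the xor-product `KG(n,k) · KG(n,k)`.  For every `k ≥ 1` we show
`f₂ n k = ⌊n / k⌋ + g k` for all large `n`, where `g k = (k / 2) * (2k).choose k - k`.
-/

open Finset

namespace Pool.Agent.Results.MP_0f7bbd_co.XorSquareCliqueNumber

/-- the Kneser graph `KG(n,k)`: the `k`-subsets of an `n`-set, distinct sets are joined if and only if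
they are disjoint -/
def KG (n k : ℕ) : SimpleGraph {s : Finset (Fin n) // s.card = k} where
  Adj X Y := X ≠ Y ∧ Disjoint X.1 Y.1
  symm := ⟨fun _ _ h => ⟨h.1.symm, h.2.symm⟩⟩
  loopless := ⟨fun _ h => h.1 rfl⟩

/-- the xor-product of two graphs -/
def xorProd {V W : Type} (G : SimpleGraph V) (H : SimpleGraph W) : SimpleGraph (V × W) where
  Adj p q := Xor (G.Adj p.1 q.1) (H.Adj p.2 q.2)
  symm := ⟨fun p q h => by rwa [G.adj_comm q.1 p.1, H.adj_comm q.2 p.2]⟩
  loopless := ⟨fun p h => by simp [Xor] at h⟩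

/-- `f_2(n,k)`, the clique number of `KG(n,k) · KG(n,k)` -/
noncomputable def f₂ (n k : ℕ) : ℕ := (xorProd (KG n k) (KG n k)).cliqueNum

/-- `g(k) = (k / 2) (2k choose k) - k` (the binomial coefficient is even for `k ≥ 1`) -/
def g (k : ℕ) : ℕ := k * (2 * k).choose k / 2 - k

lemma adj_iff {n k : ℕ} (hk : 1 ≤ k)
    (p q : {s : Finset (Fin n) // s.card = k} × {s : Finset (Fin n) // s.card = k}) :
    (xorProd (KG n k) (KG n k)).Adj p q ↔ (Disjoint p.1.1 q.1.1 ↔ ¬ Disjoint p.2.1 q.2.1) := by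
  have h : ∀ (X Y : {s : Finset (Fin n) // s.card = k}), (KG n k).Adj X Y ↔ Disjoint X.1 Y.1 := by
    intro X Y
    constructor
    · exact fun h => h.2
    · intro h
      refine ⟨?_, h⟩
      rintro rfl
      rw [Finset.disjoint_self_iff_empty] at h
      have := X.2
      rw [h, Finset.card_empty] at this
      omega
  change Xor ((KG n k).Adj p.1 q.1) ((KG n k).Adj p.2 q.2) ↔ _
  rw [h, h]
  unfold Xor
  by_cases h1 : Disjoint p.1.1 q.1.1 <;> by_cases h2 : Disjoint p.2.1 q.2.1 <;> simp [h1, h2]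

theorem of_main {k : ℕ} (hM : Pool.Agent.K4H58.XK.Main k) (hk : 1 ≤ k) :
    ∃ n₀ : ℕ, ∀ n : ℕ, n₀ ≤ n → f₂ n k = n / k + g k := by
  obtain ⟨n1, h1⟩ := Pool.Agent.K4H58.XK.upper hM hk
  obtain ⟨n2, h2⟩ := Pool.Agent.K4H58.XK.lower_bound hk
  refine ⟨max n1 n2, fun n hn => le_antisymm ?_ ?_⟩
  · obtain ⟨S, hS⟩ := (xorProd (KG n k) (KG n k)).exists_isNClique_cliqueNum
    classical
    have := h1 n ((le_max_left _ _).trans hn) (ι := {p // p ∈ S}) (fun i => i.1.1.1) (fun i => i.1.2.1)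
      (fun i => i.1.1.2) (fun i => i.1.2.2) (fun i j hij =>
        (adj_iff hk i.1 j.1).1 (hS.isClique (Finset.mem_coe.2 i.2) (Finset.mem_coe.2 j.2)
          (fun h => hij (Subtype.ext h))))
    rw [Fintype.card_coe, hS.card_eq] at this
    exact this
  · obtain ⟨F, hF1, hF2, hF3⟩ := h2 n ((le_max_right _ _).trans hn)
    classical
    let T : Finset ({s : Finset (Fin n) // s.card = k} × {s : Finset (Fin n) // s.card = k}) :=
      F.attach.image (fun p => (⟨p.1.1, (hF1 p.1 p.2).1⟩, ⟨p.1.2, (hF1 p.1 p.2).2⟩))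
    have hT : T.card = F.card := by
      rw [Finset.card_image_of_injective, Finset.card_attach]
      intro p q h
      simp only [Prod.mk.injEq, Subtype.mk.injEq] at h
      exact Subtype.ext (Prod.ext h.1 h.2)
    have hc : (xorProd (KG n k) (KG n k)).IsClique (T : Set _) := by
      intro a ha b hb hab
      simp only [T, Finset.coe_image, Set.mem_image, Finset.mem_coe, Finset.mem_attach, true_and] at ha hb
      obtain ⟨p, rfl⟩ := ha
      obtain ⟨q, rfl⟩ := hb
      rw [adj_iff hk]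
      refine hF2 p.1 p.2 q.1 q.2 ?_
      intro h
      apply hab
      rw [Subtype.ext h]
    have := SimpleGraph.IsClique.card_le_cliqueNum (tc := hc)
    rw [hT, hF3] at this
    exact this

/-- **The clique number of the xor-square of a Kneser graph**: for every `k ≥ 1` there is `n₀` such that
`f_2(n,k) = ⌊n/k⌋ + g(k)` for all `n ≥ n₀`. -/
theorem result (k : ℕ) (hk : 1 ≤ k) : ∃ n₀ : ℕ, ∀ n : ℕ, n₀ ≤ n → f₂ n k = n / k + g k := by
  refine of_main ?_ hk
  by_cases h : 19 ≤ k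
  · exact Pool.Agent.K4H58.XK.main_of_good (Pool.Agent.K4H58.XK.good_large h) hk
  · by_cases h' : 4 ≤ k ∧ k ≤ 8
    · exact Pool.Agent.K4H58.XK.main_of_weights hk _ _ (Pool.Agent.K4H58.XK.hw_small k)
        (fun Y0 hY => Pool.Agent.K4H58.XK.hL_small k h' Y0 hY)
        (fun Y0 hY => Pool.Agent.K4H58.XK.hU_small k h' Y0 hY)
    · exact Pool.Agent.K4H58.XK.main_of_good (Pool.Agent.K4H58.XK.good_small (by omega)) hk

end Pool.Agent.Results.MP_0f7bbd_co.XorSquareCliqueNumber
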